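import Mathlib
import Pool.Agent.H65.SD.Walks

/-!
# Splitting digraphs whose minimum outdegree is large compared with the anticomplete walks
-/

set_option autoImplicit false

namespace Pool.Agent.Results.MP_36dd09_co.InducedMatchings

open Finset Pool.Agent.H65.SD

/-- `M` is a set of pairwise anticomplete walks with `l` arcs in `D[W]`: each element of `M` is a directed
walk `p 0, …, p l` of the digraph in `W` (vertices may be repeated), and different walks of `M` have no common
vertex and no arc of the digraph joins a vertex of one of them to a vertex of the other. For `l = 0` these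
are the independent sets and for `l = 1` the induced matchings. -/
def IsWalkPacking {V : Type} (G : Digraph V) (W : Set V) (l : ℕ) (M : Set (Fin (l + 1) → V)) : Prop :=
  (∀ p ∈ M, (∀ i, p i ∈ W) ∧ ∀ i : Fin l, G.Adj (p i.castSucc) (p i.succ)) ∧
    ∀ p ∈ M, ∀ p' ∈ M, p ≠ p' → ∀ i j, p i ≠ p' j ∧ ¬ G.Adj (p i) (p' j)

/-- `c = s (2 ((l + 1) s + 1) (1 + s + … + s ^ l) - 1) m` -/
def cBound (l s m : ℕ) : ℕ :=
  s * ((2 * (((l + 1) * s + 1) * ∑ j ∈ Finset.range (l + 1), s ^ j) - 1) * m)

/-- **Theorem.** Let `D` be a finite digraph without loops, `s, t, q ≥ 1`, `l, m ≥ 0` integers,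
`c = s (2 ((l + 1) s + 1) (1 + s + … + s ^ l) - 1) m`, and let `W` be a nonempty set of vertices such that
there are no more than `m` pairwise anticomplete walks with `l` arcs in `D[W]` and every vertex of `W` has at
least `(q - 1) c + s` out-neighbours in `W`. If all outdegrees of `D` are at least `q c + t` then the vertex
set has a partition into `q + 1` nonempty classes such that in `q` of the classes every vertex has at least
`s` out-neighbours in its class, and in the remaining class every vertex has at least `t` out-neighbours in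
the class. -/
theorem result (V : Type) [Finite V] (G : Digraph V) (l s t q m : ℕ) (W : Set V)
    (hl : ∀ v, ¬ G.Adj v v) (hs : 1 ≤ s) (ht : 1 ≤ t) (_hq : 1 ≤ q) (hW : W.Nonempty)
    (hm : ∀ M : Set (Fin (l + 1) → V), IsWalkPacking G W l M → M.ncard ≤ m)
    (hWo : ∀ w ∈ W, (q - 1) * cBound l s m + s ≤ {v : V | v ∈ W ∧ G.Adj w v}.ncard)
    (ho : ∀ v, q * cBound l s m + t ≤ {w : V | G.Adj v w}.ncard) :
    ∃ P : V → Fin (q + 1), Function.Surjective P ∧
      (∀ v, P v ≠ Fin.last q → s ≤ {w : V | P w = P v ∧ G.Adj v w}.ncard) ∧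
      ∀ v, P v = Fin.last q → t ≤ {w : V | P w = P v ∧ G.Adj v w}.ncard := by
  classical
  have : Fintype V := Fintype.ofFinite V
  set c : ℕ := cBound l s m with hc
  set F : Finset V := W.toFinset with hF
  have hFW : (F : Set V) = W := Set.coe_toFinset W
  have hFn : F.Nonempty := by
    obtain ⟨w, hw⟩ := hW
    exact ⟨w, Set.mem_toFinset.2 hw⟩
  have hFa : ∀ W' ⊆ F, W'.Nonempty → (∀ w ∈ W', s ≤ (outS G.Adj W' w).card) →
      ∃ U ⊆ W', U.Nonempty ∧ (∀ u ∈ U, s ≤ (outS G.Adj U u).card) ∧ U.card ≤ c := by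
    intro W' hW' hne hdeg
    obtain ⟨U, hU1, hU2, hU3, hU4⟩ := exists_dom G.Adj hl s hs W' hne hdeg
    refine ⟨U, hU1, hU2, hU3, card_le_walks G.Adj s m l U hU4 fun M hM1 hM2 => ?_⟩
    have h1 := hm (M : Set (Fin (l + 1) → V)) ⟨fun p hp => ?_, fun p hp p' hp' hne' => ?_⟩
    · rwa [Set.ncard_coe_finset] at h1
    · obtain ⟨h2, h3⟩ := hM1 p (Finset.mem_coe.1 hp)
      exact ⟨fun i => Set.mem_toFinset.1 (hW' (hU1 (h2 i))), h3⟩
    · exact hM2 p (Finset.mem_coe.1 hp) p' (Finset.mem_coe.1 hp') hne'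
  have hFo : ∀ w ∈ F, (q - 1) * c + s ≤ (outS G.Adj F w).card := by
    intro w hw
    have h1 := hWo w (Set.mem_toFinset.1 hw)
    have h2 : {v : V | v ∈ W ∧ G.Adj w v} = ((outS G.Adj F w : Finset V) : Set V) := by
      ext v
      simp [outS, hF]
    rwa [h2, Set.ncard_coe_finset] at h1
  obtain ⟨A, hA1, hA2⟩ := exists_many G.Adj s c hs F hFn hFa q hFo
  set T : Finset V := (Finset.range q).biUnion A with hT
  have hTc : T.card ≤ q * c := by
    have := Finset.card_biUnion_le_card_mul (Finset.range q) A c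
      fun i hi => (hA1 i (mem_range.1 hi)).2.2.2
    rwa [Finset.card_range] at this
  have hout : ∀ v, t ≤ (outS G.Adj (Finset.univ \ T) v).card := by
    intro v
    have h1 := ho v
    have h2 : {w : V | G.Adj v w} = ((outS G.Adj Finset.univ v : Finset V) : Set V) := by
      ext w
      simp [outS]
    rw [h2, Set.ncard_coe_finset] at h1
    have h3 := out_sdiff G.Adj Finset.univ T v
    omega
  let P : V → Fin (q + 1) := fun v =>
    if h : ∃ i, i < q ∧ v ∈ A i then ⟨h.choose, Nat.lt_succ_of_lt h.choose_spec.1⟩ else Fin.last q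
  have hP1 : ∀ i (hi : i < q), ∀ v ∈ A i, P v = ⟨i, Nat.lt_succ_of_lt hi⟩ := by
    intro i hi v hv
    have h : ∃ i, i < q ∧ v ∈ A i := ⟨i, hi, hv⟩
    have h1 : P v = ⟨h.choose, Nat.lt_succ_of_lt h.choose_spec.1⟩ := dif_pos h
    rw [h1]
    refine Fin.ext ?_
    by_contra hne
    exact Finset.disjoint_left.1 (hA2 _ h.choose_spec.1 i hi hne) h.choose_spec.2 hv
  have hP2 : ∀ v, v ∉ T → P v = Fin.last q := by
    intro v hv
    refine dif_neg ?_
    rintro ⟨i, hi, hvi⟩
    exact hv (mem_biUnion.2 ⟨i, mem_range.2 hi, hvi⟩)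
  have hP3 : ∀ v, P v = Fin.last q → v ∉ T := by
    intro v hv hvT
    obtain ⟨i, hi, hvi⟩ := mem_biUnion.1 hvT
    have h1 := hP1 i (mem_range.1 hi) v hvi
    rw [hv] at h1
    have h2 := congrArg Fin.val h1
    simp only [Fin.val_last] at h2
    exact absurd (mem_range.1 hi) (by omega)
  refine ⟨P, fun j => ?_, fun v hv => ?_, fun v hv => ?_⟩
  · rcases Nat.lt_succ_iff_lt_or_eq.1 j.2 with h | h
    · obtain ⟨v, hv⟩ := (hA1 j h).2.1
      exact ⟨v, hP1 j h v hv⟩
    · obtain ⟨w, hw⟩ := hFn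
      have h1 : 0 < (outS G.Adj (Finset.univ \ T) w).card := lt_of_lt_of_le ht (hout w)
      obtain ⟨y, hy⟩ := Finset.card_pos.1 h1
      have h2 := (mem_sdiff.1 (mem_filter.1 hy).1).2
      refine ⟨y, (hP2 y h2).trans (Fin.ext ?_)⟩
      rw [Fin.val_last, h]
  · have hvT : v ∈ T := by
      by_contra hcon
      exact hv (hP2 v hcon)
    obtain ⟨i, hi, hvi⟩ := mem_biUnion.1 hvT
    have hi' := mem_range.1 hi
    have h1 := (hA1 i hi').2.2.1 v hvi
    have h2 : ((outS G.Adj (A i) v : Finset V) : Set V) ⊆ {w : V | P w = P v ∧ G.Adj v w} := by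
      intro w hw
      obtain ⟨h3, h4⟩ := mem_filter.1 (Finset.mem_coe.1 hw)
      exact ⟨(hP1 i hi' w h3).trans (hP1 i hi' v hvi).symm, h4⟩
    have h5 := Set.ncard_le_ncard h2 (Set.toFinite _)
    rw [Set.ncard_coe_finset] at h5
    exact h1.trans h5
  · have h1 := hout v
    have h2 : ((outS G.Adj (Finset.univ \ T) v : Finset V) : Set V) ⊆
        {w : V | P w = P v ∧ G.Adj v w} := by
      intro w hw
      obtain ⟨h3, h4⟩ := mem_filter.1 (Finset.mem_coe.1 hw)
      exact ⟨(hP2 w (mem_sdiff.1 h3).2).trans hv.symm, h4⟩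
    have h5 := Set.ncard_le_ncard h2 (Set.toFinite _)
    rw [Set.ncard_coe_finset] at h5
    exact h1.trans h5

end Pool.Agent.Results.MP_36dd09_co.InducedMatchings
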